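import Pool.Agent.Helper14.FO.Defs2

/-! fof_mods ASM: nodes give universality. -/

set_option autoImplicit false

namespace Pool.Agent.Helper83.FO

open Pool.Agent.Helper14.FO

theorem asm_trans {U V W : Type} {X : SimpleGraph U} {Y : SimpleGraph V} {Z : SimpleGraph W}
    (h : HomTo X Y) (h' : HomTo Y Z) : HomTo X Z := by
  obtain ⟨f, hf⟩ := h
  obtain ⟨g, hg⟩ := h'
  exact ⟨fun x => g (f x), fun a b hab => hg _ _ (hf _ _ hab)⟩

theorem asm_refl {U : Type} (X : SimpleGraph U) : HomTo X X := ⟨id, fun _ _ h => h⟩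

/-- transport of a graph to `Fin n` -/
noncomputable def asmTr {V : Type} [Fintype V] (X : SimpleGraph V) :
    Σ n : ℕ, SimpleGraph (Fin n) :=
  ⟨Fintype.card V, X.comap (Fintype.equivFin V).symm⟩

theorem asm_tr_l {V : Type} [Fintype V] (X : SimpleGraph V) : HomTo X (asmTr X).2 := by
  refine ⟨fun x => Fintype.equivFin V x, fun a b h => ?_⟩
  change X.Adj ((Fintype.equivFin V).symm (Fintype.equivFin V a))
    ((Fintype.equivFin V).symm (Fintype.equivFin V b))
  simpa using h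

theorem asm_tr_r {V : Type} [Fintype V] (X : SimpleGraph V) : HomTo (asmTr X).2 X :=
  ⟨fun x => (Fintype.equivFin V).symm x, fun _ _ h => h⟩

/-- vertex sets of the parts: `none` gives the lower end, a word gives its node -/
def asmV (V₁ : Type) (nd : List Bool → Nd) (S : Finset (List Bool)) :
    Option {w // w ∈ S} → Type
  | none => V₁
  | some b => (nd b.1).V

instance asmFin (V₁ : Type) [Fintype V₁] (nd : List Bool → Nd) (S : Finset (List Bool)) :
    ∀ i, Fintype (asmV V₁ nd S i)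
  | none => inferInstanceAs (Fintype V₁)
  | some b => inferInstanceAs (Fintype (nd b.1).V)

/-- graphs of the parts -/
def asmY {V₁ : Type} (X₁ : SimpleGraph V₁) (nd : List Bool → Nd) (S : Finset (List Bool)) :
    ∀ i, SimpleGraph (asmV V₁ nd S i)
  | none => X₁
  | some b => (nd b.1).X

/-- the graph of a finite set of words -/
def asmG {V₁ : Type} (X₁ : SimpleGraph V₁) (nd : List Bool → Nd) (S : Finset (List Bool)) :
    SimpleGraph (Σ i, asmV V₁ nd S i) :=
  SigG (asmY X₁ nd S)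

theorem asm_in0 {V₁ : Type} (X₁ : SimpleGraph V₁) (nd : List Bool → Nd)
    (S : Finset (List Bool)) : HomTo X₁ (asmG X₁ nd S) :=
  ⟨fun x => ⟨none, x⟩, fun x y h => ⟨none, x, y, rfl, rfl, h⟩⟩

theorem asm_in {V₁ : Type} (X₁ : SimpleGraph V₁) (nd : List Bool → Nd)
    (S : Finset (List Bool)) (a : List Bool) (ha : a ∈ S) : HomTo (nd a).X (asmG X₁ nd S) :=
  ⟨fun x => ⟨some ⟨a, ha⟩, x⟩, fun x y h => ⟨some ⟨a, ha⟩, x, y, rfl, rfl, h⟩⟩

theorem asm_out {V₁ : Type} (X₁ : SimpleGraph V₁) (nd : List Bool → Nd)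
    (S : Finset (List Bool)) {W : Type} (Z : SimpleGraph W) (h0 : HomTo X₁ Z)
    (h : ∀ a ∈ S, HomTo (nd a).X Z) : HomTo (asmG X₁ nd S) Z := by
  have h' : ∀ i, HomTo (asmY X₁ nd S i) Z := by
    rintro (_ | b)
    · exact h0
    · exact h b.1 b.2
  choose f hf using h'
  refine ⟨fun x => f x.1 x.2, ?_⟩
  rintro a b ⟨i, x, y, rfl, rfl, hxy⟩
  exact hf i x y hxy

theorem asm_suf (nd : List Bool → Nd) (h : ∀ w b, HomTo (nd (b :: w)).X (nd w).X)
    (b : List Bool) : ∀ l : List Bool, HomTo (nd (l ++ b)).X (nd b).X := by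
  intro l
  induction l with
  | nil => exact asm_refl _
  | cons c l ih => exact asm_trans (h (l ++ b) c) ih

theorem asm_suf' (nd : List Bool → Nd) (h : ∀ w b, HomTo (nd (b :: w)).X (nd w).X)
    {a b : List Bool} (hs : b <:+ a) : HomTo (nd a).X (nd b).X := by
  obtain ⟨l, rfl⟩ := hs
  exact asm_suf nd h b l

theorem st_ASM (h1 : ST_REL1) (h2 : ST_REL2) (h3 : ST_CE2) (h4 : ST_UNI) : ST_ASM := by
  intro V₁ V₂ _ _ _ _ X₁ X₂ h12 nd hnd2 hhom hpos θ₁ χ₁ hθ₁ hχ₁ hT1 hC1 hlm P _ r hr ht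
  obtain ⟨B, -, hB⟩ := h4 P r hr ht
  have hale : ∀ {V W : Type} {X : SimpleGraph V} {Y : SimpleGraph W}, HomTo X Y → ALE X Y :=
    fun {V W X Y} h => h1 V W X Y h
  have hT : ∀ {U V W : Type} {X : SimpleGraph U} {Y : SimpleGraph V} {Z : SimpleGraph W},
      ALE X Y → ALE Y Z → ALE X Z := fun {U V W X Y Z} h h' => h2 U V W X Y Z h h'
  refine ⟨fun i => asmTr (asmG X₁ nd (B i)),
    fun i j => ⟨fun hij => ?_, fun hij => ?_⟩, fun i => ⟨?_, ?_⟩⟩
  · -- homomorphisms
    refine hale (asm_trans (asm_tr_r _) (asm_trans ?_ (asm_tr_l _)))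
    refine asm_out X₁ nd (B i) _ (asm_in0 X₁ nd (B j)) fun a ha => ?_
    obtain ⟨b, hb, hs⟩ := (hB i j).1 hij a ha
    exact asm_trans (asm_suf' nd hhom hs) (asm_in X₁ nd (B j) b hb)
  · -- certificates
    refine (hB i j).2 fun a ha => ?_
    have hA : ALE (nd a).X (asmG X₁ nd (B j)) :=
      hT (hale (asm_trans (asm_in X₁ nd (B i) a ha) (asm_tr_l _))) (hT hij (hale (asm_tr_r _)))
    obtain ⟨l, μ, hl, hμ, hlt0, hlt⟩ := hlm a
    obtain ⟨b, hb⟩ := h3 (nd a).V (nd a).X (nd a).ρ (nd a).θ (nd a).c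
      (fun x => ((nd a).pos x).le) (nd a).one (hpos a).1 (hpos a).2.2 (nd a).lowT (nd a).lowC
      (Option {w // w ∈ B j}) (asmV V₁ nd (B j)) (asmY X₁ nd (B j))
      (fun i => i.elim θ₁ fun b => (nd b.1).θ) (fun i => i.elim χ₁ fun b => (nd b.1).χ)
      (by
        rintro (_ | b)
        · exact hθ₁
        · exact (hpos b.1).1)
      (by
        rintro (_ | b)
        · exact hχ₁
        · exact (hpos b.1).2.1)
      (by
        rintro (_ | b)
        · exact hT1
        · exact (nd b.1).upT)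
      (by
        rintro (_ | b)
        · exact hC1
        · exact (nd b.1).upW) hA l μ hl hμ
    rcases b with _ | b
    · exact absurd hlt0 (not_lt.2 hb)
    · refine ⟨b.1, b.2, ?_⟩
      by_contra hs
      exact absurd (hlt b.1 hs) (not_lt.2 hb)
  · exact hale (asm_trans (asm_in0 X₁ nd (B i)) (asm_tr_l _))
  · exact hale (asm_trans (asm_tr_r _) (asm_out X₁ nd (B i) X₂ h12 fun a _ => hnd2 a))

end Pool.Agent.Helper83.FO
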